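import Pool.Agent.Helper6.NX.GoalsC

/-! Packet NX-C1: nearly invariant laws on tuples cover every point. -/

set_option linter.unusedVariables false

namespace Pool.Agent.Helper45.NX

open Equiv Pool.Agent.Helper6.NX

/-- probability that the point `v` is covered -/
noncomputable def uu {n f : ℕ} (q : (Fin f ↪ Fin n) → ℝ) (v : Fin n) : ℝ :=
  ∑ b : Fin f ↪ Fin n, (if ∃ i, b i = v then q b else 0)

theorem uu_nonneg {n f : ℕ} {q : (Fin f ↪ Fin n) → ℝ} (hq : ∀ b, 0 ≤ q b) (v : Fin n) :
    0 ≤ uu q v := by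
  refine Finset.sum_nonneg fun b _ => ?_
  split_ifs
  · exact hq b
  · exact le_rfl

theorem uu_sum {n f : ℕ} {q : (Fin f ↪ Fin n) → ℝ} (hq : ∑ b, q b = 1) :
    ∑ v, uu q v = f := by
  unfold uu
  rw [Finset.sum_comm]
  have h : ∀ b : Fin f ↪ Fin n, (∑ v : Fin n, (if ∃ i, b i = v then q b else 0)) = f * q b := by
    intro b
    rw [← Finset.sum_filter, Finset.sum_const, nsmul_eq_mul]
    congr 2
    have : (Finset.univ.filter fun v : Fin n => ∃ i, b i = v) = Finset.univ.map b := by
      ext v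
      simp
    rw [this]
    simp
  rw [Finset.sum_congr rfl fun b _ => h b, ← Finset.mul_sum, hq, mul_one]

theorem uu_near {n f : ℕ} (q : (Fin f ↪ Fin n) → ℝ) (w : Perm (Fin n)) (v : Fin n) :
    uu q (w⁻¹ v) - uu q v ≤
      ∑ b : Fin f ↪ Fin n, |q (b.trans ((w⁻¹ : Perm (Fin n)).toEmbedding)) - q b| := by
  have h : uu q (w⁻¹ v) = ∑ b : Fin f ↪ Fin n,
      (if ∃ i, b i = v then q (b.trans ((w⁻¹ : Perm (Fin n)).toEmbedding)) else 0) := by
    unfold uu
    let e : (Fin f ↪ Fin n) ≃ (Fin f ↪ Fin n) :=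
      { toFun := fun b => b.trans ((w⁻¹ : Perm (Fin n)).toEmbedding)
        invFun := fun b => b.trans (w.toEmbedding)
        left_inv := fun b => by ext i; simp
        right_inv := fun b => by ext i; simp }
    rw [← Equiv.sum_comp e]
    refine Finset.sum_congr rfl fun b _ => ?_
    have : (∃ i, (e b) i = w⁻¹ v) ↔ ∃ i, b i = v := by
      refine exists_congr fun i => ?_
      change w⁻¹ (b i) = w⁻¹ v ↔ _
      exact (w⁻¹ : Perm (Fin n)).injective.eq_iff
    simp only [this]
    rfl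
  rw [h]
  unfold uu
  rw [← Finset.sum_sub_distrib]
  refine Finset.sum_le_sum fun b _ => ?_
  split_ifs
  · exact le_abs_self _
  · simp

theorem thmC1 : S_C1 := by
  intro n f q ω θ hn hq hω hc hnear hθ v
  change _ ≤ uu q v
  have hn0 : (0 : ℝ) < n := by exact_mod_cast hn
  -- the mean of `u (w⁻¹ v)`
  have h1 : (f : ℝ) / (2 * n) ≤ ∑ w, ω w * uu q (w⁻¹ v) := by
    have h2 : ∑ w, ω w * uu q (w⁻¹ v) =
        ∑ v' : Fin n, uu q v' * ∑ w : Perm (Fin n), (if w v' = v then ω w else 0) := by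
      have h3 : ∀ w : Perm (Fin n), ω w * uu q (w⁻¹ v) =
          ∑ v' : Fin n, (if w v' = v then uu q v' * ω w else 0) := by
        intro w
        have : ∀ v' : Fin n, (w v' = v) ↔ (v' = w⁻¹ v) := by
          intro v'
          exact Equiv.Perm.eq_inv_iff_eq.symm
        simp only [this]
        rw [Finset.sum_ite_eq' Finset.univ (w⁻¹ v) (fun v' => uu q v' * ω w)]
        simp [mul_comm]
      rw [Finset.sum_congr rfl fun w _ => h3 w, Finset.sum_comm]
      refine Finset.sum_congr rfl fun v' _ => ?_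
      rw [Finset.mul_sum]
      refine Finset.sum_congr rfl fun w _ => ?_
      split_ifs <;> simp
    rw [h2]
    calc (f : ℝ) / (2 * n) = ∑ v' : Fin n, uu q v' * (1 / (2 * (n : ℝ))) := by
          rw [← Finset.sum_mul, uu_sum hq.2]; ring
      _ ≤ _ := Finset.sum_le_sum fun v' _ =>
          mul_le_mul_of_nonneg_left (hc v' v) (uu_nonneg hq.1 v')
  have h4 : ∑ w, ω w * uu q (w⁻¹ v) ≤ ∑ w, ω w * (uu q v + θ) := by
    refine Finset.sum_le_sum fun w _ => ?_
    rcases (hω.1 w).eq_or_lt with h0 | h0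
    · rw [← h0]; simp
    · refine mul_le_mul_of_nonneg_left ?_ h0.le
      have := uu_near q w v
      have := hnear w h0
      linarith
  rw [← Finset.sum_mul, hω.2, one_mul] at h4
  have h5 : (f : ℝ) / (2 * n) = f / (4 * n) + f / (4 * n) := by
    field_simp
    ring
  linarith

end Pool.Agent.Helper45.NX
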